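import Mathlib

set_option autoImplicit false
set_option linter.unusedSectionVars false

open MeasureTheory Filter Topology Set
open scoped ENNReal ComplexConjugate

namespace Pool.Agent.Helper21X

/-- `z` or its conjugate, according to the sign `e` -/
noncomputable def sg (e : ℤ) (z : ℂ) : ℂ := if e = 1 then z else conj z

lemma norm_sg (e : ℤ) (z : ℂ) : ‖sg e z‖ = ‖z‖ := by
  unfold sg
  split_ifs
  · rfl
  · exact Complex.norm_conj z

lemma sg_sub (e : ℤ) (z w : ℂ) : sg e (z - w) = sg e z - sg e w := by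
  unfold sg
  split_ifs
  · rfl
  · exact map_sub _ _ _

lemma sg_real_mul (e : ℤ) (r : ℝ) (z : ℂ) : sg e (r * z) = r * sg e z := by
  unfold sg
  split_ifs
  · rfl
  · rw [map_mul, Complex.conj_ofReal]

lemma sg_sum (e : ℤ) {ι : Type*} (s : Finset ι) (f : ι → ℂ) : sg e (∑ i ∈ s, f i) = ∑ i ∈ s, sg e (f i) := by
  unfold sg
  split_ifs
  · rfl
  · exact map_sum _ _ _

lemma sg_cont (e : ℤ) : Continuous (sg e) := by
  unfold sg
  split_ifs
  · exact continuous_id
  · exact Complex.continuous_conj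

lemma norm_fourier (n : ℤ) (x : UnitAddCircle) : ‖(fourier n x : ℂ)‖ = 1 := by
  rw [fourier_apply]
  exact Circle.norm_coe _

lemma fourier_smul_add (n : ℤ) (a b : ℤ) (x : UnitAddCircle) :
    (fourier n ((a + b) • x) : ℂ) = fourier n (a • x) * fourier n (b • x) := by
  rw [fourier_apply, fourier_apply, fourier_apply, ← Circle.coe_mul, ← AddCircle.toCircle_add, add_smul,
    smul_add]

lemma fourier_smul_neg (n : ℤ) (a : ℤ) (x : UnitAddCircle) :
    (fourier n ((-a) • x) : ℂ) = conj (fourier n (a • x) : ℂ) := by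
  rw [fourier_apply, fourier_apply, neg_smul, smul_neg, AddCircle.toCircle_neg, Circle.coe_inv_eq_conj]

lemma fourier_smul_sub (n : ℤ) (a b : ℤ) (x : UnitAddCircle) :
    (fourier n ((a - b) • x) : ℂ) = fourier n (a • x) * conj (fourier n (b • x) : ℂ) := by
  rw [sub_eq_add_neg, fourier_smul_add, fourier_smul_neg]

lemma sg_fourier (n : ℤ) {e : ℤ} (he : e = 1 ∨ e = -1) (a : ℤ) (x : UnitAddCircle) :
    sg e (fourier n (a • x) : ℂ) = fourier n ((e * a) • x) := by
  unfold sg
  rcases he with rfl | rfl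
  · simp
  · rw [if_neg (by norm_num), neg_one_mul, fourier_smul_neg]

lemma prod_fourier (n : ℤ) {s : ℕ} (b : Fin s → ℤ) (x : UnitAddCircle) :
    ∏ l, (fourier n (b l • x) : ℂ) = fourier n ((∑ l, b l) • x) := by
  classical
  have key : ∀ F : Finset (Fin s), ∏ l ∈ F, (fourier n (b l • x) : ℂ) = fourier n ((∑ l ∈ F, b l) • x) := by
    intro F
    induction F using Finset.induction_on with
    | empty => simp
    | insert i s hi ih =>
      rw [Finset.prod_insert hi, ih, Finset.sum_insert hi, fourier_smul_add]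
  exact key _

lemma measurable_smul_int (m : ℤ) : Measurable fun x : UnitAddCircle => m • x :=
  (continuous_zsmul m).measurable

lemma int_map {μ ν : Measure UnitAddCircle} {m : ℤ} (h : μ.map (fun x => m • x) = ν) {E : Type*}
    [NormedAddCommGroup E] [NormedSpace ℝ E] [SecondCountableTopology E] (f : UnitAddCircle → E) (hf : Continuous f) :
    ∫ x, f (m • x) ∂μ = ∫ x, f x ∂ν := by
  rw [← h, integral_map (measurable_smul_int m).aemeasurable]
  exact hf.aestronglyMeasurable

lemma integ {μ : Measure UnitAddCircle} [IsProbabilityMeasure μ] {E : Type*}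
    [NormedAddCommGroup E] {f : UnitAddCircle → E} (hf : Continuous f) : Integrable f μ :=
  hf.integrable_of_hasCompactSupport (HasCompactSupport.of_compactSpace f)

lemma sq_int_le {μ : Measure UnitAddCircle} [IsProbabilityMeasure μ] {f : UnitAddCircle → ℝ} (hf : Continuous f) :
    (∫ x, f x ∂μ) ^ 2 ≤ ∫ x, f x ^ 2 ∂μ := by
  have hi1 : Integrable (fun x => f x) μ := integ hf
  have hi2 : Integrable (fun x => f x ^ 2) μ := integ (hf.pow 2)
  set I := ∫ x, f x ∂μ with hI
  have h6 : 0 ≤ ∫ x, (f x - I) ^ 2 ∂μ := integral_nonneg fun x => sq_nonneg _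
  have h7 : ∫ x, (f x - I) ^ 2 ∂μ = ∫ x, f x ^ 2 ∂μ - I ^ 2 := by
    have h8 : ∀ x, (f x - I) ^ 2 = f x ^ 2 - 2 * I * f x + I ^ 2 := by
      intro x
      ring
    simp_rw [h8]
    have h9 : Integrable (fun x => f x ^ 2 - 2 * I * f x) μ := hi2.sub (hi1.const_mul _)
    rw [integral_add h9 (integrable_const _), integral_sub hi2 (hi1.const_mul _),
      integral_const_mul, integral_const, probReal_univ, ← hI]
    simp only [smul_eq_mul, one_mul]
    ring
  linarith

section core

variable {ι : Type*} [Fintype ι] (μ ν : Measure UnitAddCircle) (n : ℤ) (a : ι → ℤ)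

/-- `e(n a_i x)` -/
noncomputable def G (i : ι) (x : UnitAddCircle) : ℂ := fourier n (a i • x)

/-- the average of the `e(n a_i x)` -/
noncomputable def A (x : UnitAddCircle) : ℂ := ((Fintype.card ι : ℝ)⁻¹ : ℝ) * ∑ i, G n a i x

/-- the Fourier coefficient of the target measure -/
noncomputable def cc : ℂ := ∫ x, (fourier n x : ℂ) ∂ν

/-- the deviation of the Gram matrix from a constant -/
noncomputable def Q (i j : ι) : ℝ := ∫ x, (G n a i x * conj (G n a j x)).re ∂μ - (cc ν n).re

/-- the sum of the moduli of the deviations -/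
noncomputable def QQ : ℝ := ∑ i, ∑ j, |Q μ ν n a i j|

/-- the good pairs -/
def Good (i j : ι) : Prop :=
  μ.map (fun x => (a i - a j) • x) = ν ∨ μ.map (fun x => (a j - a i) • x) = ν

variable {μ ν n a}

lemma G_cont (i : ι) : Continuous (G n a i) := (fourier n).continuous.comp (continuous_zsmul _)

lemma norm_G (i : ι) (x : UnitAddCircle) : ‖G n a i x‖ = 1 := norm_fourier _ _

lemma A_cont : Continuous (A n a) := by
  unfold A
  exact continuous_const.mul (continuous_finsetSum _ fun i _ => G_cont i)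

lemma norm_A_le (x : UnitAddCircle) : ‖A n a x‖ ≤ 1 := by
  unfold A
  rw [norm_mul, Complex.norm_real, Real.norm_of_nonneg (by positivity)]
  have h1 : ‖∑ i, G n a i x‖ ≤ Fintype.card ι := by
    refine (norm_sum_le _ _).trans ?_
    simp [norm_G]
  rcases Nat.eq_zero_or_pos (Fintype.card ι) with h0 | h0
  · rw [h0]; simp
  · have h0' : (0 : ℝ) < Fintype.card ι := by exact_mod_cast h0
    rw [inv_mul_le_iff₀ h0']
    simpa using h1

lemma re_cc [IsProbabilityMeasure ν] : ∫ x, (fourier n x : ℂ).re ∂ν = (cc ν n).re := by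
  unfold cc
  exact integral_re (integ (fourier n).continuous)

lemma Q_good [IsProbabilityMeasure ν] {i j : ι} (h : Good μ ν a i j) : Q μ ν n a i j = 0 := by
  unfold Q
  rcases h with h | h
  · have h1 : ∀ x, (G n a i x * conj (G n a j x)).re = (fourier n ((a i - a j) • x) : ℂ).re := by
      intro x
      rw [fourier_smul_sub]
      rfl
    simp_rw [h1]
    rw [int_map h (fun x => (fourier n x : ℂ).re) (Complex.continuous_re.comp (fourier n).continuous), re_cc,
      sub_self]
  · have h1 : ∀ x, (G n a i x * conj (G n a j x)).re = (fourier n ((a j - a i) • x) : ℂ).re := by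
      intro x
      rw [fourier_smul_sub, ← Complex.conj_re]
      congr 1
      simp [G, mul_comm]
    simp_rw [h1]
    rw [int_map h (fun x => (fourier n x : ℂ).re) (Complex.continuous_re.comp (fourier n).continuous), re_cc,
      sub_self]

lemma norm_cc_le [IsProbabilityMeasure ν] : ‖cc ν n‖ ≤ 1 := by
  have := norm_integral_le_of_norm_le_const (μ := ν) (f := fun x => (fourier n x : ℂ)) (C := 1)
    (Eventually.of_forall fun x => (norm_fourier n x).le)
  rw [probReal_univ, mul_one] at this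
  exact this

lemma gg_cont (i j : ι) : Continuous fun x => (G n a i x * conj (G n a j x)).re :=
  Complex.continuous_re.comp ((G_cont i).mul (Complex.continuous_conj.comp (G_cont j)))

lemma Q_le [IsProbabilityMeasure μ] [IsProbabilityMeasure ν] (i j : ι) : |Q μ ν n a i j| ≤ 2 := by
  unfold Q
  have h1 : |∫ x, (G n a i x * conj (G n a j x)).re ∂μ| ≤ 1 := by
    have := norm_integral_le_of_norm_le_const (μ := μ) (f := fun x => (G n a i x * conj (G n a j x)).re) (C := 1)
      (Eventually.of_forall fun x => by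
        rw [Real.norm_eq_abs]
        refine (Complex.abs_re_le_norm _).trans ?_
        rw [norm_mul, Complex.norm_conj, norm_G, norm_G, mul_one])
    rw [probReal_univ, mul_one] at this
    exact this
  have h2 : |(cc ν n).re| ≤ 1 := (Complex.abs_re_le_norm _).trans norm_cc_le
  calc _ ≤ |∫ x, (G n a i x * conj (G n a j x)).re ∂μ| + |(cc ν n).re| := abs_sub _ _
    _ ≤ 2 := by linarith

lemma QQ_nonneg : 0 ≤ QQ μ ν n a := Finset.sum_nonneg fun _ _ => Finset.sum_nonneg fun _ _ => abs_nonneg _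

open Classical in
lemma QQ_le [IsProbabilityMeasure μ] [IsProbabilityMeasure ν] :
    QQ μ ν n a ≤ 2 * ((Finset.univ.filter fun ij : ι × ι => ¬ Good μ ν a ij.1 ij.2).card : ℝ) := by
  unfold QQ
  rw [← Finset.sum_product' Finset.univ Finset.univ fun i j => |Q μ ν n a i j|]
  rw [Finset.univ_product_univ]
  rw [← Finset.sum_filter_add_sum_filter_not Finset.univ fun ij : ι × ι => ¬ Good μ ν a ij.1 ij.2]
  have h1 : ∑ x ∈ Finset.univ.filter (fun ij : ι × ι => ¬ ¬ Good μ ν a ij.1 ij.2), |Q μ ν n a x.1 x.2| = 0 := by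
    refine Finset.sum_eq_zero fun x hx => ?_
    rw [Finset.mem_filter, not_not] at hx
    rw [Q_good hx.2, abs_zero]
  rw [h1, add_zero]
  calc _ ≤ ∑ x ∈ Finset.univ.filter (fun ij : ι × ι => ¬ Good μ ν a ij.1 ij.2), (2 : ℝ) :=
        Finset.sum_le_sum fun x _ => Q_le _ _
    _ = _ := by rw [Finset.sum_const, nsmul_eq_mul, mul_comm]

/-- the Gram form -/
lemma gram (u : ι → ℝ) (x : UnitAddCircle) :
    ‖∑ i, (u i : ℂ) * G n a i x‖ ^ 2 = ∑ i, ∑ j, u i * u j * (G n a i x * conj (G n a j x)).re := by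
  rw [← Complex.normSq_eq_norm_sq]
  have h1 : (Complex.normSq (∑ i, (u i : ℂ) * G n a i x) : ℂ) =
      ∑ i, ∑ j, (u i : ℂ) * (u j : ℂ) * (G n a i x * conj (G n a j x)) := by
    rw [← Complex.mul_conj, map_sum, Finset.sum_mul_sum]
    refine Finset.sum_congr rfl fun i _ => Finset.sum_congr rfl fun j _ => ?_
    rw [map_mul, Complex.conj_ofReal]
    ring
  have h2 := congrArg Complex.re h1
  rw [Complex.ofReal_re] at h2
  rw [h2, Complex.re_sum]
  refine Finset.sum_congr rfl fun i _ => ?_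
  rw [Complex.re_sum]
  refine Finset.sum_congr rfl fun j _ => ?_
  rw [← Complex.ofReal_mul, Complex.re_ofReal_mul]

lemma gram_int [IsProbabilityMeasure μ] (u : ι → ℝ) :
    ∫ x, ‖∑ i, (u i : ℂ) * G n a i x‖ ^ 2 ∂μ =
      (∑ i, u i) ^ 2 * (cc ν n).re + ∑ i, ∑ j, u i * u j * Q μ ν n a i j := by
  simp_rw [gram]
  rw [integral_finsetSum _ fun i _ => integrable_finsetSum _ fun j _ => (integ (gg_cont i j)).const_mul _]
  rw [sq, Finset.sum_mul_sum, Finset.sum_mul, ← Finset.sum_add_distrib]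
  refine Finset.sum_congr rfl fun i _ => ?_
  rw [integral_finsetSum _ fun j _ => (integ (gg_cont i j)).const_mul _, Finset.sum_mul, ← Finset.sum_add_distrib]
  refine Finset.sum_congr rfl fun j _ => ?_
  rw [integral_const_mul]
  unfold Q
  ring

lemma gram_err (u : ι → ℝ) (hu : ∀ i, |u i| ≤ 1) :
    |∑ i, ∑ j, u i * u j * Q μ ν n a i j| ≤ QQ μ ν n a := by
  refine (Finset.abs_sum_le_sum_abs _ _).trans (Finset.sum_le_sum fun i _ => ?_)
  refine (Finset.abs_sum_le_sum_abs _ _).trans (Finset.sum_le_sum fun j _ => ?_)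
  rw [abs_mul, abs_mul]
  calc |u i| * |u j| * |Q μ ν n a i j| ≤ 1 * 1 * |Q μ ν n a i j| := by
        gcongr
        · exact hu i
        · exact hu j
    _ = _ := by ring

/-- the second moment of the average -/
lemma A_sq [IsProbabilityMeasure μ] [Nonempty ι] :
    |∫ x, ‖A n a x‖ ^ 2 ∂μ - (cc ν n).re| ≤ QQ μ ν n a / (Fintype.card ι : ℝ) ^ 2 := by
  have hr : (0 : ℝ) < Fintype.card ι := by exact_mod_cast Fintype.card_pos
  have h1 : ∀ x, ‖A n a x‖ ^ 2 = ((Fintype.card ι : ℝ) ^ 2)⁻¹ * ‖∑ i, ((1 : ℝ) : ℂ) * G n a i x‖ ^ 2 := by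
    intro x
    unfold A
    rw [norm_mul, Complex.norm_real, Real.norm_of_nonneg (by positivity), mul_pow]
    simp
  simp_rw [h1]
  rw [integral_const_mul, gram_int (ν := ν) (fun _ => (1 : ℝ))]
  have h2 := gram_err (μ := μ) (ν := ν) (n := n) (a := a) (fun _ => (1 : ℝ)) (fun _ => by simp)
  rw [Finset.sum_const, Finset.card_univ, nsmul_eq_mul, mul_one]
  have h3 : ((Fintype.card ι : ℝ) ^ 2)⁻¹ * ((Fintype.card ι : ℝ) ^ 2 * (cc ν n).re +
      ∑ i : ι, ∑ j : ι, (1 : ℝ) * 1 * Q μ ν n a i j) - (cc ν n).re =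
      (∑ i : ι, ∑ j : ι, (1 : ℝ) * 1 * Q μ ν n a i j) / (Fintype.card ι : ℝ) ^ 2 := by
    field_simp
    ring
  rw [h3, abs_div, abs_of_pos (pow_pos hr 2)]
  gcongr

/-- the `L¹` size of the weighted deviations from the average -/
lemma dev [IsProbabilityMeasure μ] [Nonempty ι] (φ : ι → ℝ) (h0 : ∀ i, 0 ≤ φ i) (h1 : ∀ i, φ i ≤ 1) :
    ∫ x, ‖∑ i, (φ i : ℂ) * (G n a i x - A n a x)‖ ∂μ ≤ Real.sqrt (QQ μ ν n a) := by
  have hr : (0 : ℝ) < Fintype.card ι := by exact_mod_cast Fintype.card_pos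
  set m : ℝ := (Fintype.card ι : ℝ)⁻¹ * ∑ i, φ i with hm
  have hm0 : 0 ≤ m := mul_nonneg (by positivity) (Finset.sum_nonneg fun i _ => h0 i)
  have hm1 : m ≤ 1 := by
    rw [hm, inv_mul_le_iff₀ hr, mul_one]
    calc ∑ i, φ i ≤ ∑ _i : ι, (1 : ℝ) := Finset.sum_le_sum fun i _ => h1 i
      _ = _ := by rw [Finset.sum_const, Finset.card_univ, nsmul_eq_mul, mul_one]
  have hmc : (Fintype.card ι : ℝ) * m = ∑ i, φ i := by
    rw [hm]
    field_simp
  have e1 : ∀ x, ∑ i, (φ i : ℂ) * (G n a i x - A n a x) = ∑ i, ((φ i - m : ℝ) : ℂ) * G n a i x := by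
    intro x
    have e2 : ∑ i, (φ i : ℂ) * A n a x = ∑ i, (m : ℂ) * G n a i x := by
      rw [← Finset.sum_mul, ← Finset.mul_sum, ← Complex.ofReal_sum, ← hmc]
      unfold A
      push_cast
      have : (Fintype.card ι : ℂ) ≠ 0 := by exact_mod_cast hr.ne'
      field_simp
    simp_rw [mul_sub]
    rw [Finset.sum_sub_distrib, e2, ← Finset.sum_sub_distrib]
    refine Finset.sum_congr rfl fun i _ => ?_
    push_cast
    ring
  simp_rw [e1]
  have hcont : Continuous fun x => ∑ i, ((φ i - m : ℝ) : ℂ) * G n a i x :=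
    continuous_finsetSum _ fun i _ => continuous_const.mul (G_cont i)
  have h2 : ∫ x, ‖∑ i, ((φ i - m : ℝ) : ℂ) * G n a i x‖ ^ 2 ∂μ ≤ QQ μ ν n a := by
    rw [gram_int (ν := ν) (fun i => φ i - m)]
    have h3 : ∑ i, (φ i - m) = 0 := by
      rw [Finset.sum_sub_distrib, Finset.sum_const, Finset.card_univ, nsmul_eq_mul, hmc, sub_self]
    rw [h3]
    have h4 := gram_err (μ := μ) (ν := ν) (n := n) (a := a) (fun i => φ i - m) (fun i => by
      rw [abs_le]
      constructor
      · linarith [h0 i]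
      · linarith [h1 i])
    have h5 := (abs_le.1 h4).2
    nlinarith
  refine Real.le_sqrt_of_sq_le (le_trans ?_ h2)
  exact sq_int_le hcont.norm

/-- the product over a tuple -/
noncomputable def PP (n : ℤ) (a : ι → ℤ) {s : ℕ} (e : Fin s → ℤ) (t : Fin s → ι) (x : UnitAddCircle) : ℂ :=
  ∏ l, sg (e l) (G n a (t l) x)

/-- the product of the averages -/
noncomputable def PA (n : ℤ) (a : ι → ℤ) {s : ℕ} (e : Fin s → ℤ) (x : UnitAddCircle) : ℂ :=
  ∏ l, sg (e l) (A n a x)

lemma PP_cont {s : ℕ} (e : Fin s → ℤ) (t : Fin s → ι) : Continuous (PP n a e t) :=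
  continuous_finsetProd _ fun _ _ => (sg_cont _).comp (G_cont _)

lemma PA_cont {s : ℕ} (e : Fin s → ℤ) : Continuous (PA n a e) :=
  continuous_finsetProd _ fun _ _ => (sg_cont _).comp A_cont

lemma norm_PP {s : ℕ} (e : Fin s → ℤ) (t : Fin s → ι) (x : UnitAddCircle) : ‖PP n a e t x‖ = 1 := by
  unfold PP
  rw [norm_prod]
  exact Finset.prod_eq_one fun l _ => by rw [norm_sg, norm_G]

lemma norm_PA {s : ℕ} (e : Fin s → ℤ) (x : UnitAddCircle) : ‖PA n a e x‖ = ‖A n a x‖ ^ s := by
  unfold PA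
  rw [norm_prod]
  simp [norm_sg]

lemma tuples [IsProbabilityMeasure μ] [Nonempty ι] {s : ℕ} (e : Fin s → ℤ) (φ : (Fin s → ι) → ℝ)
    (h0 : ∀ t, 0 ≤ φ t) (h1 : ∀ t, φ t ≤ 1) :
    ∫ x, ‖∑ t, (φ t : ℂ) * (PP n a e t x - PA n a e x)‖ ∂μ ≤
      s * (Fintype.card ι : ℝ) ^ s * (Real.sqrt (QQ μ ν n a) / Fintype.card ι) := by
  classical
  have hr : (0 : ℝ) < Fintype.card ι := by exact_mod_cast Fintype.card_pos
  set R : ℝ := Real.sqrt (QQ μ ν n a) / Fintype.card ι with hR
  have hR' : Real.sqrt (QQ μ ν n a) = Fintype.card ι * R := by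
    rw [hR]
    field_simp
  have hR0 : 0 ≤ R := by positivity
  induction s with
  | zero =>
    have : ∀ x, ‖∑ t : Fin 0 → ι, (φ t : ℂ) * (PP n a e t x - PA n a e x)‖ = 0 := by
      intro x
      rw [norm_eq_zero]
      refine Finset.sum_eq_zero fun t _ => ?_
      simp [PP, PA]
    simp_rw [this]
    simp
  | succ s ih =>
    set e' : Fin s → ℤ := fun l => e l.succ with he'
    have hsplit : ∀ x, ∑ t : Fin (s + 1) → ι, (φ t : ℂ) * (PP n a e t x - PA n a e x) =
        ∑ t' : Fin s → ι, PP n a e' t' x * sg (e 0) (∑ i, ((φ (Fin.cons i t') : ℝ) : ℂ) * (G n a i x - A n a x)) +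
        ∑ i : ι, sg (e 0) (A n a x) * ∑ t' : Fin s → ι, (φ (Fin.cons i t') : ℂ) * (PP n a e' t' x - PA n a e' x) := by
      intro x
      have hPP : ∀ (i : ι) (t' : Fin s → ι), PP n a e (Fin.cons i t') x = sg (e 0) (G n a i x) * PP n a e' t' x := by
        intro i t'
        unfold PP
        rw [Fin.prod_univ_succ]
        simp [he']
      have hPA : PA n a e x = sg (e 0) (A n a x) * PA n a e' x := by
        unfold PA
        rw [Fin.prod_univ_succ]
      rw [← Equiv.sum_comp (Fin.consEquiv fun _ => ι), Fintype.sum_prod_type]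
      simp only [Fin.consEquiv, Equiv.coe_fn_mk]
      simp_rw [hPP, hPA, sg_sum, sg_real_mul, sg_sub, Finset.mul_sum]
      rw [Finset.sum_comm (s := (Finset.univ : Finset (Fin s → ι))) (t := (Finset.univ : Finset ι)),
        ← Finset.sum_add_distrib]
      refine Finset.sum_congr rfl fun i _ => ?_
      rw [← Finset.sum_add_distrib]
      refine Finset.sum_congr rfl fun t' _ => ?_
      ring
    have hc1 : ∀ t' : Fin s → ι, Continuous fun x =>
        ‖∑ i, ((φ (Fin.cons i t') : ℝ) : ℂ) * (G n a i x - A n a x)‖ := fun t' =>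
      (continuous_finsetSum _ fun i _ => continuous_const.mul ((G_cont i).sub A_cont)).norm
    have hc2 : ∀ i : ι, Continuous fun x =>
        ‖∑ t' : Fin s → ι, (φ (Fin.cons i t') : ℂ) * (PP n a e' t' x - PA n a e' x)‖ := fun i =>
      (continuous_finsetSum _ fun t' _ => continuous_const.mul ((PP_cont _ _).sub (PA_cont _))).norm
    have hbd : ∀ x, ‖∑ t : Fin (s + 1) → ι, (φ t : ℂ) * (PP n a e t x - PA n a e x)‖ ≤
        ∑ t' : Fin s → ι, ‖∑ i, ((φ (Fin.cons i t') : ℝ) : ℂ) * (G n a i x - A n a x)‖ +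
        ∑ i : ι, ‖∑ t' : Fin s → ι, (φ (Fin.cons i t') : ℂ) * (PP n a e' t' x - PA n a e' x)‖ := by
      intro x
      rw [hsplit]
      refine (norm_add_le _ _).trans (add_le_add ?_ ?_)
      · refine (norm_sum_le _ _).trans (Finset.sum_le_sum fun t' _ => ?_)
        rw [norm_mul, norm_PP, one_mul, norm_sg]
      · refine (norm_sum_le _ _).trans (Finset.sum_le_sum fun i _ => ?_)
        rw [norm_mul, norm_sg]
        exact mul_le_of_le_one_left (norm_nonneg _) (norm_A_le x)
    have hcS : Continuous fun x => ‖∑ t : Fin (s + 1) → ι, (φ t : ℂ) * (PP n a e t x - PA n a e x)‖ :=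
      (continuous_finsetSum _ fun t _ => continuous_const.mul ((PP_cont _ _).sub (PA_cont _))).norm
    calc ∫ x, ‖∑ t : Fin (s + 1) → ι, (φ t : ℂ) * (PP n a e t x - PA n a e x)‖ ∂μ
        ≤ ∫ x, (∑ t' : Fin s → ι, ‖∑ i, ((φ (Fin.cons i t') : ℝ) : ℂ) * (G n a i x - A n a x)‖ +
        ∑ i : ι, ‖∑ t' : Fin s → ι, (φ (Fin.cons i t') : ℂ) * (PP n a e' t' x - PA n a e' x)‖) ∂μ := by
          refine integral_mono (integ hcS) (integ ?_) hbd
          exact (continuous_finsetSum _ fun t' _ => hc1 t').add (continuous_finsetSum _ fun i _ => hc2 i)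
      _ = ∑ t' : Fin s → ι, ∫ x, ‖∑ i, ((φ (Fin.cons i t') : ℝ) : ℂ) * (G n a i x - A n a x)‖ ∂μ +
        ∑ i : ι, ∫ x, ‖∑ t' : Fin s → ι, (φ (Fin.cons i t') : ℂ) * (PP n a e' t' x - PA n a e' x)‖ ∂μ := by
          rw [integral_add (integrable_finsetSum _ fun t' _ => integ (hc1 t'))
            (integrable_finsetSum _ fun i _ => integ (hc2 i)), integral_finsetSum _ fun t' _ => integ (hc1 t'),
            integral_finsetSum _ fun i _ => integ (hc2 i)]
      _ ≤ ∑ _t' : Fin s → ι, Fintype.card ι * R + ∑ _i : ι, (s * (Fintype.card ι : ℝ) ^ s * R) := by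
          refine add_le_add (Finset.sum_le_sum fun t' _ => ?_) (Finset.sum_le_sum fun i _ => ?_)
          · rw [← hR']
            exact dev _ (fun i => h0 _) (fun i => h1 _)
          · exact ih e' (fun t' => φ (Fin.cons i t')) (fun t' => h0 _) (fun t' => h1 _)
      _ = (s + 1 : ℕ) * (Fintype.card ι : ℝ) ^ (s + 1) * R := by
          rw [Finset.sum_const, Finset.sum_const, Finset.card_univ, Finset.card_univ, Fintype.card_fun,
            Fintype.card_fin, nsmul_eq_mul, nsmul_eq_mul]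
          push_cast
          ring

/-- the integral of the product over a good tuple -/
lemma int_PP {s : ℕ} {e : Fin s → ℤ} (he : ∀ l, e l = 1 ∨ e l = -1) {t : Fin s → ι}
    (h : μ.map (fun x => (∑ l, e l * a (t l)) • x) = ν) : ∫ x, PP n a e t x ∂μ = cc ν n := by
  unfold PP G
  have h1 : ∀ x : UnitAddCircle, ∏ l, sg (e l) (fourier n (a (t l) • x) : ℂ) =
      fourier n ((∑ l, e l * a (t l)) • x) := by
    intro x
    rw [← prod_fourier]
    exact Finset.prod_congr rfl fun l _ => sg_fourier n (he l) _ x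
  simp_rw [h1]
  exact int_map h (fun x => (fourier n x : ℂ)) (fourier n).continuous

/-- many good tuples -/
lemma many [IsProbabilityMeasure μ] [Nonempty ι] {s : ℕ} (e : Fin s → ℤ) (he : ∀ l, e l = 1 ∨ e l = -1)
    (E : Finset (Fin s → ι)) (hE : ∀ t ∈ E, μ.map (fun x => (∑ l, e l * a (t l)) • x) = ν) :
    (E.card : ℝ) * ‖cc ν n‖ ≤ s * (Fintype.card ι : ℝ) ^ s * (Real.sqrt (QQ μ ν n a) / Fintype.card ι) +
      E.card * ∫ x, ‖A n a x‖ ^ s ∂μ := by
  classical
  have h1 := tuples (μ := μ) (ν := ν) (n := n) (a := a) e (fun t => if t ∈ E then (1 : ℝ) else 0)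
    (fun t => by split_ifs <;> norm_num) (fun t => by split_ifs <;> norm_num)
  have h2 : ∀ x, ∑ t : Fin s → ι, ((if t ∈ E then (1 : ℝ) else 0 : ℝ) : ℂ) * (PP n a e t x - PA n a e x) =
      ∑ t ∈ E, PP n a e t x - E.card * PA n a e x := by
    intro x
    have h3 : ∀ t : Fin s → ι, ((if t ∈ E then (1 : ℝ) else 0 : ℝ) : ℂ) * (PP n a e t x - PA n a e x) =
        if t ∈ E then (PP n a e t x - PA n a e x) else 0 := by
      intro t
      split_ifs <;> simp
    simp_rw [h3]
    rw [← Finset.sum_filter, Finset.filter_mem_eq_inter, Finset.univ_inter, Finset.sum_sub_distrib,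
      Finset.sum_const, nsmul_eq_mul]
  simp_rw [h2] at h1
  have hc1 : Continuous fun x => ∑ t ∈ E, PP n a e t x := continuous_finsetSum _ fun t _ => PP_cont _ _
  have hc2 : Continuous fun x => (E.card : ℂ) * PA n a e x := continuous_const.mul (PA_cont _)
  have h4 : ∫ x, ∑ t ∈ E, PP n a e t x ∂μ = E.card * cc ν n := by
    rw [integral_finsetSum _ fun t _ => integ (PP_cont _ _), Finset.sum_congr rfl fun t ht => int_PP he (hE t ht),
      Finset.sum_const, nsmul_eq_mul]
  have h5 : ‖(E.card : ℂ) * cc ν n‖ = E.card * ‖cc ν n‖ := by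
    rw [norm_mul, Complex.norm_natCast]
  rw [← h5, ← h4]
  have h6 : ∀ x, ‖∑ t ∈ E, PP n a e t x‖ ≤ ‖∑ t ∈ E, PP n a e t x - E.card * PA n a e x‖ +
      E.card * ‖A n a x‖ ^ s := by
    intro x
    calc ‖∑ t ∈ E, PP n a e t x‖ = ‖(∑ t ∈ E, PP n a e t x - E.card * PA n a e x) + E.card * PA n a e x‖ := by
          congr 1; ring
      _ ≤ _ := norm_add_le _ _
      _ = _ := by rw [norm_mul, Complex.norm_natCast, norm_PA]
  have hc3 : Continuous fun x => (E.card : ℝ) * ‖A n a x‖ ^ s := continuous_const.mul (A_cont.norm.pow s)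
  have hc4 : Continuous fun x => ‖∑ t ∈ E, PP n a e t x - E.card * PA n a e x‖ := (hc1.sub hc2).norm
  calc ‖∫ x, ∑ t ∈ E, PP n a e t x ∂μ‖ ≤ ∫ x, ‖∑ t ∈ E, PP n a e t x‖ ∂μ := norm_integral_le_integral_norm _
    _ ≤ ∫ x, (‖∑ t ∈ E, PP n a e t x - E.card * PA n a e x‖ + E.card * ‖A n a x‖ ^ s) ∂μ :=
        integral_mono (integ hc1.norm) (integ (hc4.add hc3)) h6
    _ = ∫ x, ‖∑ t ∈ E, PP n a e t x - E.card * PA n a e x‖ ∂μ + E.card * ∫ x, ‖A n a x‖ ^ s ∂μ := by
        rw [integral_add (integ hc4) (integ hc3), integral_const_mul]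
    _ ≤ _ := by linarith

/-- the mass near the zeros of `n x` -/
noncomputable def MM (ν : Measure UnitAddCircle) (n : ℤ) (τ : ℝ) : ℝ :=
  ν.real {x | ‖1 - (fourier n x : ℂ)‖ ^ 2 ≤ τ}

lemma meas_near (n : ℤ) (τ : ℝ) : MeasurableSet {x : UnitAddCircle | ‖1 - (fourier n x : ℂ)‖ ^ 2 ≤ τ} :=
  (isClosed_le ((continuous_const.sub (fourier n).continuous).norm.pow 2) continuous_const).measurableSet

lemma near_good {i j : ι} (h : Good μ ν a i j) (τ : ℝ) :
    μ.real {x | ‖G n a i x - G n a j x‖ ^ 2 ≤ τ} = MM ν n τ := by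
  unfold MM
  rcases h with h | h
  · rw [← h, map_measureReal_apply (measurable_smul_int _) (meas_near n τ)]
    congr 1
    ext x
    simp only [mem_ofPred_eq, mem_preimage]
    have e : ‖G n a i x - G n a j x‖ = ‖1 - (fourier n ((a i - a j) • x) : ℂ)‖ := by
      rw [fourier_smul_sub]
      have h1 : G n a i x - G n a j x = -(G n a j x) * (1 - (fourier n (a i • x) : ℂ) * conj (fourier n (a j • x) : ℂ)) := by
        have h2 : G n a j x * conj (fourier n (a j • x) : ℂ) = 1 := by
          unfold G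
          rw [Complex.mul_conj, Complex.normSq_eq_norm_sq, norm_fourier]
          simp
        have h3 : G n a i x = fourier n (a i • x) := rfl
        rw [h3]
        linear_combination (-(fourier n (a i • x) : ℂ)) * h2
      rw [h1, norm_mul, norm_neg, norm_G, one_mul]
    rw [e]
  · rw [← h, map_measureReal_apply (measurable_smul_int _) (meas_near n τ)]
    congr 1
    ext x
    simp only [mem_ofPred_eq, mem_preimage]
    have e : ‖G n a i x - G n a j x‖ = ‖1 - (fourier n ((a j - a i) • x) : ℂ)‖ := by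
      rw [fourier_smul_sub]
      have h1 : G n a i x - G n a j x = (G n a i x) * (1 - (fourier n (a j • x) : ℂ) * conj (fourier n (a i • x) : ℂ)) := by
        have h2 : G n a i x * conj (fourier n (a i • x) : ℂ) = 1 := by
          unfold G
          rw [Complex.mul_conj, Complex.normSq_eq_norm_sq, norm_fourier]
          simp
        have h3 : G n a j x = fourier n (a j • x) := rfl
        rw [h3]
        linear_combination (fourier n (a j • x) : ℂ) * h2
      rw [h1, norm_mul, norm_G, one_mul]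
    rw [e]

/-- the pairwise differences and the average -/
lemma sum_diff [Nonempty ι] (x : UnitAddCircle) :
    ∑ i, ∑ j, ‖G n a i x - G n a j x‖ ^ 2 = (Fintype.card ι : ℝ) ^ 2 * (2 - 2 * ‖A n a x‖ ^ 2) := by
  have hr : (0 : ℝ) < Fintype.card ι := by exact_mod_cast Fintype.card_pos
  have h1 : ∀ i j, ‖G n a i x - G n a j x‖ ^ 2 = 2 - 2 * (G n a i x * conj (G n a j x)).re := by
    intro i j
    rw [← Complex.normSq_eq_norm_sq, Complex.normSq_sub, Complex.normSq_eq_norm_sq, Complex.normSq_eq_norm_sq,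
      norm_G, norm_G]
    ring
  have h2 : ‖A n a x‖ ^ 2 = ((Fintype.card ι : ℝ) ^ 2)⁻¹ * ∑ i, ∑ j, (G n a i x * conj (G n a j x)).re := by
    have h3 := gram (n := n) (a := a) (fun _ => (1 : ℝ)) x
    simp only [Complex.ofReal_one, one_mul] at h3
    rw [← h3]
    unfold A
    rw [norm_mul, Complex.norm_real, Real.norm_of_nonneg (by positivity), mul_pow, inv_pow]
  rw [h2]
  simp_rw [h1]
  rw [Finset.sum_congr rfl fun i _ => Finset.sum_sub_distrib _ _]
  rw [Finset.sum_sub_distrib]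
  simp only [Finset.sum_const, Finset.card_univ, nsmul_eq_mul, ← Finset.mul_sum]
  field_simp

open Classical in
/-- the average is rarely of modulus close to one -/
lemma near_one [IsProbabilityMeasure μ] [Nonempty ι] {η : ℝ} (hη : 0 < η)
    (hbad : 2 * ((Finset.univ.filter fun ij : ι × ι => ¬ Good μ ν a ij.1 ij.2).card : ℝ) ≤
      (Fintype.card ι : ℝ) ^ 2) :
    μ.real {x | 1 - η < ‖A n a x‖} ≤ 2 * MM ν n (16 * η) := by
  have hr : (0 : ℝ) < Fintype.card ι := by exact_mod_cast Fintype.card_pos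
  set W : Set UnitAddCircle := {x | 1 - η < ‖A n a x‖} with hW
  have hWm : MeasurableSet W := (isOpen_lt continuous_const A_cont.norm).measurableSet
  set π : ℝ := μ.real W with hπ
  set M : ℝ := MM ν n (16 * η) with hM
  have hM0 : 0 ≤ M := measureReal_nonneg
  have hπ0 : 0 ≤ π := measureReal_nonneg
  set D : ι → ι → UnitAddCircle → ℝ := fun i j x => ‖G n a i x - G n a j x‖ ^ 2 with hD
  have hDc : ∀ i j, Continuous (D i j) := fun i j => ((G_cont i).sub (G_cont j)).norm.pow 2
  -- upper bound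
  have hup : ∑ i, ∑ j, ∫ x in W, D i j x ∂μ ≤ 4 * η * (Fintype.card ι : ℝ) ^ 2 * π := by
    have h1 : ∑ i, ∑ j, ∫ x in W, D i j x ∂μ = ∫ x in W, ∑ i, ∑ j, D i j x ∂μ := by
      rw [integral_finsetSum _ fun i _ => integrable_finsetSum _ fun j _ => (integ (hDc i j)).integrableOn]
      refine Finset.sum_congr rfl fun i _ => ?_
      rw [integral_finsetSum _ fun j _ => (integ (hDc i j)).integrableOn]
    rw [h1]
    calc ∫ x in W, ∑ i, ∑ j, D i j x ∂μ ≤ ∫ x in W, 4 * η * (Fintype.card ι : ℝ) ^ 2 ∂μ := by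
          refine setIntegral_mono_on ?_ (integrable_const _).integrableOn hWm ?_
          · exact integrable_finsetSum _ fun i _ => integrable_finsetSum _ fun j _ => (integ (hDc i j)).integrableOn
          · intro x hx
            rw [hW, mem_ofPred_eq] at hx
            rw [hD]
            show ∑ i, ∑ j, ‖G n a i x - G n a j x‖ ^ 2 ≤ _
            rw [sum_diff]
            have h2 := norm_A_le (n := n) (a := a) x
            have h3 : 2 - 2 * ‖A n a x‖ ^ 2 ≤ 4 * η := by nlinarith [norm_nonneg (A n a x)]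
            calc _ ≤ (Fintype.card ι : ℝ) ^ 2 * (4 * η) := mul_le_mul_of_nonneg_left h3 (by positivity)
              _ = _ := by ring
      _ = _ := by
          rw [setIntegral_const, smul_eq_mul, ← hπ]
          ring
  -- lower bound
  by_cases hcase : π ≤ M
  · linarith
  push Not at hcase
  have hlow1 : ∀ i j, Good μ ν a i j → 16 * η * (π - M) ≤ ∫ x in W, D i j x ∂μ := by
    intro i j hij
    set N : Set UnitAddCircle := {x | D i j x ≤ 16 * η} with hN
    have hNm : MeasurableSet N := (isClosed_le (hDc i j) continuous_const).measurableSet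
    have hNM : μ.real N = M := near_good hij _
    have h1 : π - M ≤ μ.real (W \ N) := by
      rw [← hNM]
      have : W ⊆ (W \ N) ∪ N := by
        intro x hx
        by_cases hxN : x ∈ N
        · exact Or.inr hxN
        · exact Or.inl ⟨hx, hxN⟩
      have h2 : μ.real W ≤ μ.real (W \ N) + μ.real N := (measureReal_mono this).trans (measureReal_union_le _ _)
      linarith
    calc 16 * η * (π - M) ≤ 16 * η * μ.real (W \ N) := mul_le_mul_of_nonneg_left h1 (by positivity)
      _ = ∫ x in W \ N, 16 * η ∂μ := by rw [setIntegral_const, smul_eq_mul, mul_comm]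
      _ ≤ ∫ x in W \ N, D i j x ∂μ := by
          refine setIntegral_mono_on (integrable_const _).integrableOn (integ (hDc i j)).integrableOn
            (hWm.diff hNm) ?_
          intro x hx
          have := hx.2
          rw [hN, mem_ofPred_eq, not_le] at this
          exact this.le
      _ ≤ ∫ x in W, D i j x ∂μ := by
          refine setIntegral_mono_set (integ (hDc i j)).integrableOn ?_ ?_
          · exact Eventually.of_forall fun x => sq_nonneg _
          · exact (sdiff_subset).eventuallyLE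
  have hlow : (Fintype.card ι : ℝ) ^ 2 / 2 * (16 * η * (π - M)) ≤ ∑ i, ∑ j, ∫ x in W, D i j x ∂μ := by
    rw [← Finset.sum_product' Finset.univ Finset.univ fun i j => ∫ x in W, D i j x ∂μ, Finset.univ_product_univ]
    have hpos : 0 ≤ 16 * η * (π - M) := mul_nonneg (by positivity) (by linarith)
    have hcount : (Fintype.card ι : ℝ) ^ 2 / 2 ≤
        ((Finset.univ.filter fun ij : ι × ι => Good μ ν a ij.1 ij.2).card : ℝ) := by
      have h1 := Finset.card_filter_add_card_filter_not (s := (Finset.univ : Finset (ι × ι)))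
        (fun ij : ι × ι => Good μ ν a ij.1 ij.2)
      rw [Finset.card_univ, Fintype.card_prod] at h1
      have h2 : ((Finset.univ.filter fun ij : ι × ι => Good μ ν a ij.1 ij.2).card : ℝ) +
          ((Finset.univ.filter fun ij : ι × ι => ¬ Good μ ν a ij.1 ij.2).card : ℝ) = (Fintype.card ι : ℝ) ^ 2 := by
        rw [sq]
        exact_mod_cast h1
      linarith
    calc (Fintype.card ι : ℝ) ^ 2 / 2 * (16 * η * (π - M)) ≤
          ((Finset.univ.filter fun ij : ι × ι => Good μ ν a ij.1 ij.2).card : ℝ) * (16 * η * (π - M)) :=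
            mul_le_mul_of_nonneg_right hcount hpos
      _ = ∑ _ij ∈ Finset.univ.filter (fun ij : ι × ι => Good μ ν a ij.1 ij.2), (16 * η * (π - M)) := by
          rw [Finset.sum_const, nsmul_eq_mul]
      _ ≤ ∑ ij ∈ Finset.univ.filter (fun ij : ι × ι => Good μ ν a ij.1 ij.2), ∫ x in W, D ij.1 ij.2 x ∂μ := by
          refine Finset.sum_le_sum fun ij hij => hlow1 _ _ ?_
          exact (Finset.mem_filter.1 hij).2
      _ ≤ _ := by
          refine Finset.sum_le_sum_of_subset_of_nonneg (Finset.filter_subset _ _) fun ij _ _ => ?_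
          exact setIntegral_nonneg hWm fun x _ => sq_nonneg _
  have hfin := hlow.trans hup
  have hr2 : (0 : ℝ) < (Fintype.card ι : ℝ) ^ 2 := pow_pos hr 2
  have h9 : 8 * η * (π - M) ≤ 4 * η * π := by
    have h10 : (Fintype.card ι : ℝ) ^ 2 * (8 * η * (π - M)) ≤ (Fintype.card ι : ℝ) ^ 2 * (4 * η * π) := by
      calc _ = (Fintype.card ι : ℝ) ^ 2 / 2 * (16 * η * (π - M)) := by ring
        _ ≤ _ := hfin
        _ = _ := by ring
    exact le_of_mul_le_mul_left h10 hr2
  have h11 : 2 * (π - M) ≤ π := by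
    have : (4 * η) * (2 * (π - M)) ≤ (4 * η) * π := by linarith
    exact le_of_mul_le_mul_left this (by positivity)
  linarith

open Classical in
/-- **The basic inequality.** -/
theorem bound [IsProbabilityMeasure μ] [IsProbabilityMeasure ν] [Nonempty ι] {η : ℝ} (hη : 0 < η) {θ : ℝ}
    (hθ : 0 < θ) {s : ℕ} (hs : 3 ≤ s) (e : Fin s → ℤ) (he : ∀ l, e l = 1 ∨ e l = -1)
    (hbad : 2 * ((Finset.univ.filter fun ij : ι × ι => ¬ Good μ ν a ij.1 ij.2).card : ℝ) ≤
      (Fintype.card ι : ℝ) ^ 2)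
    (E : Finset (Fin s → ι)) (hE : ∀ t ∈ E, μ.map (fun x => (∑ l, e l * a (t l)) • x) = ν)
    (hcard : θ * (Fintype.card ι : ℝ) ^ s ≤ E.card) :
    ‖cc ν n‖ ≤ (QQ μ ν n a / (Fintype.card ι : ℝ) ^ 2 + s / θ * (Real.sqrt (QQ μ ν n a) / Fintype.card ι)) / η +
      2 * MM ν n (16 * η) + s / θ * (Real.sqrt (QQ μ ν n a) / Fintype.card ι) := by
  have hr : (0 : ℝ) < Fintype.card ι := by exact_mod_cast Fintype.card_pos
  set R : ℝ := Real.sqrt (QQ μ ν n a) / Fintype.card ι with hR
  have hR0 : 0 ≤ R := by positivity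
  set κ : ℝ := QQ μ ν n a / (Fintype.card ι : ℝ) ^ 2 with hκ
  have hEpos : (0 : ℝ) < E.card := lt_of_lt_of_le (by positivity) hcard
  have h1 := many (μ := μ) (ν := ν) (n := n) (a := a) e he E hE
  have hint : ∀ k : ℕ, Integrable (fun x => ‖A n a x‖ ^ k) μ := fun k => integ (A_cont.norm.pow k)
  have h2 : ‖cc ν n‖ ≤ s / θ * R + ∫ x, ‖A n a x‖ ^ s ∂μ := by
    have h3 : s * (Fintype.card ι : ℝ) ^ s * R ≤ E.card * (s / θ * R) := by
      calc s * (Fintype.card ι : ℝ) ^ s * R = (θ * (Fintype.card ι : ℝ) ^ s) * (s / θ * R) := by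
            field_simp
        _ ≤ _ := mul_le_mul_of_nonneg_right hcard (by positivity)
    have h4 : (E.card : ℝ) * ‖cc ν n‖ ≤ E.card * (s / θ * R + ∫ x, ‖A n a x‖ ^ s ∂μ) := by
      rw [mul_add]
      linarith
    exact le_of_mul_le_mul_left h4 hEpos
  have h3 : ∫ x, ‖A n a x‖ ^ s ∂μ ≤ ∫ x, ‖A n a x‖ ^ 3 ∂μ :=
    integral_mono (hint s) (hint 3) fun x => pow_le_pow_of_le_one (norm_nonneg _) (norm_A_le x) hs
  have h4 : ∫ x, ‖A n a x‖ ^ 3 ∂μ ≤ ∫ x, ‖A n a x‖ ^ 2 ∂μ :=
    integral_mono (hint 3) (hint 2) fun x => pow_le_pow_of_le_one (norm_nonneg _) (norm_A_le x) (by norm_num)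
  have h5 := A_sq (μ := μ) (ν := ν) (n := n) (a := a)
  rw [← hκ] at h5
  have h6 : ∫ x, ‖A n a x‖ ^ 2 ∂μ ≤ (cc ν n).re + κ := by linarith [(abs_le.1 h5).2]
  have h7 : (cc ν n).re ≤ ‖cc ν n‖ := Complex.re_le_norm _
  have h8 : ∫ x, ‖A n a x‖ ^ 2 ∂μ - ∫ x, ‖A n a x‖ ^ 3 ∂μ ≤ κ + s / θ * R := by linarith
  set W : Set UnitAddCircle := {x | 1 - η < ‖A n a x‖} with hW
  have hWm : MeasurableSet W := (isOpen_lt continuous_const A_cont.norm).measurableSet
  have h9 : ∫ x, ‖A n a x‖ ^ 2 ∂μ ≤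
      (∫ x, ‖A n a x‖ ^ 2 ∂μ - ∫ x, ‖A n a x‖ ^ 3 ∂μ) / η + μ.real W := by
    have h10 : (∫ x, ‖A n a x‖ ^ 2 ∂μ - ∫ x, ‖A n a x‖ ^ 3 ∂μ) / η + μ.real W =
        ∫ x, ((‖A n a x‖ ^ 2 - ‖A n a x‖ ^ 3) / η + W.indicator (fun _ => (1 : ℝ)) x) ∂μ := by
      have hi1 : Integrable (fun x => (‖A n a x‖ ^ 2 - ‖A n a x‖ ^ 3) / η) μ := ((hint 2).sub (hint 3)).div_const _
      have hi2 : Integrable (W.indicator fun _ => (1 : ℝ)) μ := (integrable_const _).indicator hWm
      rw [integral_add hi1 hi2, integral_div, integral_sub (hint 2) (hint 3), integral_indicator hWm,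
        setIntegral_const, smul_eq_mul, mul_one]
    rw [h10]
    refine integral_mono (hint 2) ?_ fun x => ?_
    · exact (((hint 2).sub (hint 3)).div_const _).add ((integrable_const _).indicator hWm)
    · have h11 := norm_A_le (n := n) (a := a) x
      have h12 := norm_nonneg (A n a x)
      have h13 : 0 ≤ ‖A n a x‖ ^ 2 - ‖A n a x‖ ^ 3 := by
        have : ‖A n a x‖ ^ 3 ≤ ‖A n a x‖ ^ 2 := pow_le_pow_of_le_one h12 h11 (by norm_num)
        linarith
      by_cases hx : x ∈ W
      · rw [indicator_of_mem hx]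
        have : ‖A n a x‖ ^ 2 ≤ 1 := pow_le_one₀ h12 h11
        have h14 : 0 ≤ (‖A n a x‖ ^ 2 - ‖A n a x‖ ^ 3) / η := div_nonneg h13 hη.le
        linarith
      · rw [indicator_of_notMem hx, add_zero, le_div_iff₀ hη]
        rw [hW, mem_ofPred_eq, not_lt] at hx
        nlinarith [sq_nonneg ‖A n a x‖]
  have h10 := near_one (μ := μ) (ν := ν) (n := n) (a := a) hη hbad
  have h11 : (∫ x, ‖A n a x‖ ^ 2 ∂μ - ∫ x, ‖A n a x‖ ^ 3 ∂μ) / η ≤ (κ + s / θ * R) / η :=
    div_le_div_of_nonneg_right h8 hη.le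
  linarith

end core

end Pool.Agent.Helper21X
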